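import Pool.Agent.WR2.StmtsC

/-!
WR2, row USB: bounded mean values.
-/

namespace Pool.Agent.WR2.H92

open Pool.Agent.WIR
open scoped BigOperators

/-- the potential -/
noncomputable def Vp (n t l : ℕ) : ℝ := min 1 (Real.sqrt (2 ^ n * 3 ^ l / 2 ^ (t + 1)))

theorem sq1 {y : ℝ} (hy : 0 ≤ y) : Real.sqrt (y / 2) ≤ 70711 / 100000 * Real.sqrt y := by
  rw [Real.sqrt_le_iff]
  refine ⟨by positivity, ?_⟩
  rw [mul_pow, Real.sq_sqrt hy]
  norm_num
  linarith

theorem sq2 {y : ℝ} (hy : 0 ≤ y) : Real.sqrt (3 * y / 2) ≤ 122475 / 100000 * Real.sqrt y := by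
  rw [Real.sqrt_le_iff]
  refine ⟨by positivity, ?_⟩
  rw [mul_pow, Real.sq_sqrt hy]
  norm_num
  linarith

theorem step_gen {y : ℝ} (hy : 0 ≤ y) :
    (min 1 (Real.sqrt (y / 2)) + min 1 (Real.sqrt (3 * y / 2))) / 2 ≤ min 1 (Real.sqrt y) := by
  have h1 := sq1 hy
  have h2 := sq2 hy
  have h3 := min_le_left 1 (Real.sqrt (y / 2))
  have h4 := min_le_right 1 (Real.sqrt (y / 2))
  have h5 := min_le_left 1 (Real.sqrt (3 * y / 2))
  have h6 := min_le_right 1 (Real.sqrt (3 * y / 2))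
  have h7 := Real.sqrt_nonneg y
  refine le_min (by linarith) ?_
  linarith

theorem step_hit {y : ℝ} (hy1 : 1 / 2 ≤ y) (hy2 : y ≤ 1) :
    (min 1 (Real.sqrt (y / 2)) + min 1 (Real.sqrt (3 * y / 2))) / 2 + 1 / 42 ≤
      min 1 (Real.sqrt y) := by
  have hy : 0 ≤ y := by linarith
  have h1 := sq1 hy
  have h2 := sq2 hy
  have h4 := min_le_right 1 (Real.sqrt (y / 2))
  have h6 := min_le_right 1 (Real.sqrt (3 * y / 2))
  have h7 : Real.sqrt y ≤ 1 := by
    rw [Real.sqrt_le_iff]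
    exact ⟨zero_le_one, by linarith⟩
  have h8 : (7071 / 10000 : ℝ) ≤ Real.sqrt y := by
    refine Real.le_sqrt_of_sq_le ?_
    norm_num
    linarith
  rw [min_eq_right h7]
  linarith

theorem vp_eq1 (n t l : ℕ) :
    Vp n (t + 1) l = min 1 (Real.sqrt ((2 ^ n * 3 ^ l / 2 ^ (t + 1)) / 2)) := by
  unfold Vp
  congr 2
  rw [pow_succ (2 : ℝ) (t + 1)]
  field_simp

theorem vp_eq2 (n t l : ℕ) :
    Vp n (t + 1) (l + 1) = min 1 (Real.sqrt (3 * (2 ^ n * 3 ^ l / 2 ^ (t + 1)) / 2)) := by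
  unfold Vp
  congr 2
  rw [pow_succ (2 : ℝ) (t + 1), pow_succ (3 : ℝ) l]
  field_simp

theorem vp_nonneg (n t l : ℕ) : 0 ≤ Vp n t l := le_min zero_le_one (Real.sqrt_nonneg _)

theorem vp_le (n t l : ℕ) : Vp n t l ≤ 1 := min_le_left _ _

theorem vp_step (h1 : FloStmt) (n t l : ℕ) :
    (Vp n (t + 1) l + Vp n (t + 1) (l + 1)) / 2 + (if Mz n l = t then (1 / 42 : ℝ) else 0) ≤
      Vp n t l := by
  rw [vp_eq1, vp_eq2]
  split_ifs with h
  · obtain ⟨ha, hb⟩ := h1.2.1 n l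
    rw [h] at ha hb
    have ha' : (2 : ℝ) ^ t ≤ 2 ^ n * 3 ^ l := by exact_mod_cast ha
    have hb' : (2 : ℝ) ^ n * 3 ^ l < 2 ^ (t + 1) := by exact_mod_cast hb
    refine step_hit ?_ ?_
    · rw [le_div_iff₀ (by positivity), pow_succ]
      linarith
    · rw [div_le_one (by positivity)]
      exact hb'.le
  · rw [add_zero]
    exact step_gen (by positivity)

/-- the mean of the potential -/
noncomputable def vm (n t : ℕ) : ℝ :=
  ∑ l ∈ Finset.range (t + 1), (t.choose l : ℝ) * (Vp n t l / 2 ^ t)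

theorem vm_nonneg (n t : ℕ) : 0 ≤ vm n t :=
  Finset.sum_nonneg fun l _ => mul_nonneg (Nat.cast_nonneg _)
    (div_nonneg (vp_nonneg _ _ _) (by positivity))

theorem vm_zero (n : ℕ) : vm n 0 ≤ 1 := by
  unfold vm
  simp only [zero_add, Finset.range_one, Finset.sum_singleton, Nat.choose_self, Nat.cast_one,
    one_mul, pow_zero, div_one]
  exact vp_le _ _ _

theorem vm_step (h1 : FloStmt) (n t : ℕ) :
    vm n (t + 1) + (∑ l ∈ Finset.range (t + 1),
      (t.choose l : ℝ) / 2 ^ t * (if Mz n l = t then (1 / 42 : ℝ) else 0)) ≤ vm n t := by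
  have e : vm n (t + 1) = ∑ l ∈ Finset.range (t + 1),
      (t.choose l : ℝ) / 2 ^ t * ((Vp n (t + 1) l + Vp n (t + 1) (l + 1)) / 2) := by
    unfold vm
    have h := Finset.sum_choose_succ_mul (fun i _ => Vp n (t + 1) i / (2 : ℝ) ^ (t + 1)) t
    rw [show t + 1 + 1 = t + 2 from rfl, h, ← Finset.sum_add_distrib]
    refine Finset.sum_congr rfl fun l _ => ?_
    rw [pow_succ (2 : ℝ) t]
    field_simp
  rw [e, ← Finset.sum_add_distrib]
  unfold vm
  refine Finset.sum_le_sum fun l _ => ?_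
  have h := vp_step h1 n t l
  have hc : (0 : ℝ) ≤ (t.choose l : ℝ) / 2 ^ t := by positivity
  have h3 := mul_le_mul_of_nonneg_left h hc
  calc _ = (t.choose l : ℝ) / 2 ^ t * ((Vp n (t + 1) l + Vp n (t + 1) (l + 1)) / 2 +
        (if Mz n l = t then (1 / 42 : ℝ) else 0)) := by ring
    _ ≤ (t.choose l : ℝ) / 2 ^ t * Vp n t l := h3
    _ = _ := by ring

theorem sum_hit (h1 : FloStmt) (n R : ℕ) :
    ∑ t ∈ Finset.range R, ∑ l ∈ Finset.range (t + 1),
      (t.choose l : ℝ) / 2 ^ t * (if Mz n l = t then (1 / 42 : ℝ) else 0) ≤ 1 := by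
  have key : ∀ R : ℕ, (∑ t ∈ Finset.range R, ∑ l ∈ Finset.range (t + 1),
      (t.choose l : ℝ) / 2 ^ t * (if Mz n l = t then (1 / 42 : ℝ) else 0)) + vm n R ≤ vm n 0 := by
    intro R
    induction R with
    | zero => simp
    | succ R ih =>
      rw [Finset.sum_range_succ]
      have := vm_step h1 n R
      linarith
  have h2 := key R
  have h3 := vm_nonneg n R
  have h4 := vm_zero n
  linarith

theorem le_mz (n l : ℕ) : l ≤ Mz n l := by
  unfold Mz
  have h1 : l ≤ Nat.log 2 (3 ^ l) := by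
    rw [Nat.le_log_iff_pow_le (by norm_num) (by positivity)]
    exact Nat.pow_le_pow_left (by norm_num) l
  omega

theorem usb (h1 : FloStmt) (_h2 : TybStmt) : UsbStmt := by
  intro n _
  refine Real.tsum_le_of_sum_range_le (fun l => ?_) fun L => ?_
  · unfold en
    positivity
  obtain ⟨R, hR⟩ : ∃ R : ℕ, ∀ l ∈ Finset.range L, Mz n l < R := by
    refine ⟨(Finset.range L).sup (Mz n) + 1, fun l hl => ?_⟩
    exact Nat.lt_succ_of_le (Finset.le_sup (f := Mz n) hl)
  have h3 : ∀ l ∈ Finset.range L, en n l ≤ 2 ^ n * 42 * ∑ t ∈ Finset.range R,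
      (t.choose l : ℝ) / 2 ^ t * (if Mz n l = t then (1 / 42 : ℝ) else 0) := by
    intro l hl
    have h4 : ∑ t ∈ Finset.range R,
        (t.choose l : ℝ) / 2 ^ t * (if Mz n l = t then (1 / 42 : ℝ) else 0) =
          ((Mz n l).choose l : ℝ) / 2 ^ (Mz n l) * (1 / 42) := by
      rw [Finset.sum_eq_single_of_mem (Mz n l) (Finset.mem_range.2 (hR l hl))]
      · rw [if_pos rfl]
      · intro b _ hb
        rw [if_neg (Ne.symm hb), mul_zero]
    rw [h4]
    unfold en
    obtain ⟨ha, -⟩ := h1.2.1 n l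
    have ha' : (2 : ℝ) ^ Mz n l ≤ 2 ^ n * 3 ^ l := by exact_mod_cast ha
    have h5 : (1 : ℝ) / 3 ^ l ≤ 2 ^ n / 2 ^ Mz n l := by
      rw [div_le_div_iff₀ (by positivity) (by positivity)]
      linarith
    calc ((Mz n l).choose l : ℝ) / 3 ^ l = ((Mz n l).choose l : ℝ) * (1 / 3 ^ l) := by ring
      _ ≤ ((Mz n l).choose l : ℝ) * (2 ^ n / 2 ^ Mz n l) :=
          mul_le_mul_of_nonneg_left h5 (Nat.cast_nonneg _)
      _ = _ := by ring
  have h6 : ∀ t : ℕ, ∑ l ∈ Finset.range L,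
      (t.choose l : ℝ) / 2 ^ t * (if Mz n l = t then (1 / 42 : ℝ) else 0) ≤
        ∑ l ∈ Finset.range (t + 1),
          (t.choose l : ℝ) / 2 ^ t * (if Mz n l = t then (1 / 42 : ℝ) else 0) := by
    intro t
    have hnn : ∀ l : ℕ, 0 ≤ (t.choose l : ℝ) / 2 ^ t * (if Mz n l = t then (1 / 42 : ℝ) else 0) := by
      intro l
      split_ifs <;> positivity
    calc _ ≤ ∑ l ∈ Finset.range (max L (t + 1)),
          (t.choose l : ℝ) / 2 ^ t * (if Mz n l = t then (1 / 42 : ℝ) else 0) := by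
          refine Finset.sum_le_sum_of_subset_of_nonneg
            (Finset.range_subset_range.2 (le_max_left _ _)) fun l _ _ => hnn l
      _ = _ := by
          symm
          refine Finset.sum_subset (Finset.range_subset_range.2 (le_max_right _ _))
            fun l _ hl => ?_
          rw [if_neg, mul_zero]
          intro h
          have := le_mz n l
          rw [Finset.mem_range] at hl
          omega
  calc ∑ l ∈ Finset.range L, en n l ≤ ∑ l ∈ Finset.range L, 2 ^ n * 42 * ∑ t ∈ Finset.range R,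
        (t.choose l : ℝ) / 2 ^ t * (if Mz n l = t then (1 / 42 : ℝ) else 0) :=
        Finset.sum_le_sum h3
    _ = 2 ^ n * 42 * ∑ t ∈ Finset.range R, ∑ l ∈ Finset.range L,
        (t.choose l : ℝ) / 2 ^ t * (if Mz n l = t then (1 / 42 : ℝ) else 0) := by
        rw [← Finset.mul_sum, Finset.sum_comm]
    _ ≤ 2 ^ n * 42 * ∑ t ∈ Finset.range R, ∑ l ∈ Finset.range (t + 1),
        (t.choose l : ℝ) / 2 ^ t * (if Mz n l = t then (1 / 42 : ℝ) else 0) :=
        mul_le_mul_of_nonneg_left (Finset.sum_le_sum fun t _ => h6 t) (by positivity)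
    _ ≤ 2 ^ n * 42 * 1 := mul_le_mul_of_nonneg_left (sum_hit h1 n R) (by positivity)
    _ = 42 * 2 ^ n := by ring

end Pool.Agent.WR2.H92
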